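import Mathlib

namespace R496.GP

open Matrix Polynomial

/-! ### Step 0: conjugation by exponentials -/

section expo

variable {𝔸 : Type*} [NormedRing 𝔸] [NormedAlgebra ℂ 𝔸] [FiniteDimensional ℂ 𝔸]

/-- left multiplication as a ring homomorphism into the continuous operators -/
noncomputable def lft : 𝔸 →+* (𝔸 →L[ℂ] 𝔸) where
  toFun := fun a => ContinuousLinearMap.mul ℂ 𝔸 a
  map_one' := by ext1 x; simp
  map_mul' := by intro a b; ext1 x; simp [mul_assoc]
  map_zero' := by ext1 x; simp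
  map_add' := by intro a b; ext1 x; simp

/-- right multiplication as a ring homomorphism into the continuous operators -/
noncomputable def rgt : 𝔸ᵐᵒᵖ →+* (𝔸 →L[ℂ] 𝔸) where
  toFun := fun a => (ContinuousLinearMap.mul ℂ 𝔸).flip a.unop
  map_one' := by ext1 x; simp
  map_mul' := by intro a b; ext1 x; simp [mul_assoc]
  map_zero' := by ext1 x; simp
  map_add' := by intro a b; ext1 x; simp

theorem conj_exp_mem' (CC : Submodule ℂ 𝔸)
    (hcomm : ∀ X ∈ CC, ∀ Y ∈ CC, X * Y - Y * X ∈ CC) {Z W : 𝔸}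
    (hZ : Z ∈ CC) (hW : W ∈ CC) :
    NormedSpace.exp Z * W * NormedSpace.exp (-Z) ∈ CC := by
  haveI : CompleteSpace 𝔸 := FiniteDimensional.complete ℂ 𝔸
  haveI : NormedAlgebra ℚ 𝔸 := NormedAlgebra.restrictScalars ℚ ℂ 𝔸
  haveI : NormedAlgebra ℚ (𝔸 →L[ℂ] 𝔸) := NormedAlgebra.restrictScalars ℚ ℂ (𝔸 →L[ℂ] 𝔸)
  have hl : Continuous (lft : 𝔸 →+* (𝔸 →L[ℂ] 𝔸)) :=
    (ContinuousLinearMap.mul ℂ 𝔸).continuous
  have hr : Continuous (rgt : 𝔸ᵐᵒᵖ →+* (𝔸 →L[ℂ] 𝔸)) :=
    (ContinuousLinearMap.mul ℂ 𝔸).flip.continuous.comp MulOpposite.continuous_unop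
  have e1 : lft (NormedSpace.exp Z) = NormedSpace.exp (lft Z) := NormedSpace.map_exp _ hl Z
  have e2 : rgt (NormedSpace.exp (MulOpposite.op (-Z))) =
      NormedSpace.exp (rgt (MulOpposite.op (-Z))) := NormedSpace.map_exp _ hr _
  have hc : Commute (lft Z) (rgt (MulOpposite.op (-Z))) := by
    show lft Z * rgt (MulOpposite.op (-Z)) = rgt (MulOpposite.op (-Z)) * lft Z
    ext1 x
    simp [lft, rgt, mul_assoc]
  have e3 := NormedSpace.exp_add_of_commute hc
  have e4 : NormedSpace.exp Z * W * NormedSpace.exp (-Z) =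
      NormedSpace.exp (lft Z + rgt (MulOpposite.op (-Z))) W := by
    rw [e3, ← e1, ← e2, NormedSpace.exp_op]
    simp [lft, rgt, mul_assoc]
  rw [e4]
  have hcl : IsClosed (CC : Set 𝔸) := Submodule.closed_of_finiteDimensional CC
  have hs := NormedSpace.exp_series_hasSum_exp' (𝕂 := ℂ) (lft Z + rgt (MulOpposite.op (-Z)))
  have hs' : HasSum (fun n : ℕ => (((n.factorial : ℂ)⁻¹ •
      (lft Z + rgt (MulOpposite.op (-Z))) ^ n : 𝔸 →L[ℂ] 𝔸)) W)
      (NormedSpace.exp (lft Z + rgt (MulOpposite.op (-Z))) W) :=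
    hs.mapL (ContinuousLinearMap.apply ℂ 𝔸 W)
  rw [← hs'.tsum_eq]
  refine tsum_mem hcl fun n => ?_
  rw [ContinuousLinearMap.smul_apply]
  refine CC.smul_mem _ ?_
  induction n with
  | zero => simpa using hW
  | succ n ih =>
    rw [pow_succ']
    show (lft Z + rgt (MulOpposite.op (-Z))) (((lft Z + rgt (MulOpposite.op (-Z))) ^ n) W) ∈ CC
    have := hcomm Z hZ _ ih
    simpa [lft, rgt, sub_eq_add_neg] using this

end expo

variable {ι : Type*} [Fintype ι] [DecidableEq ι]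

attribute [local instance] Matrix.linftyOpNormedRing Matrix.linftyOpNormedAlgebra in
theorem conj_exp_mem (CC : Submodule ℂ (Matrix ι ι ℂ))
    (hcomm : ∀ X ∈ CC, ∀ Y ∈ CC, X * Y - Y * X ∈ CC) {Z W : Matrix ι ι ℂ}
    (hZ : Z ∈ CC) (hW : W ∈ CC) :
    NormedSpace.exp Z * W * NormedSpace.exp (-Z) ∈ CC :=
  conj_exp_mem' CC hcomm hZ hW

end R496.GP
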