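import Mathlib
import Pool.Agent.R496.GP.Base

namespace R496.GP

open Matrix Polynomial
open scoped ComplexOrder

variable {ι : Type*} [Fintype ι] [DecidableEq ι]

/-- the normalizer of a subspace of matrices -/
def Nrm (CC : Submodule ℂ (Matrix ι ι ℂ)) : Subgroup (Matrix ι ι ℂ)ˣ where
  carrier := {u | ∀ Z : Matrix ι ι ℂ, (u : Matrix ι ι ℂ) * Z * ((u⁻¹ : (Matrix ι ι ℂ)ˣ) :
    Matrix ι ι ℂ) ∈ CC ↔ Z ∈ CC}
  mul_mem' := by
    intro u v hu hv Z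
    have h1 := hu ((v : Matrix ι ι ℂ) * Z * ((v⁻¹ : (Matrix ι ι ℂ)ˣ) : Matrix ι ι ℂ))
    have h2 := hv Z
    rw [← h2, ← h1]
    simp only [Units.val_mul, _root_.mul_inv_rev, mul_assoc]
  one_mem' := by intro Z; simp
  inv_mem' := by
    intro u hu Z
    have h1 := hu (((u⁻¹ : (Matrix ι ι ℂ)ˣ) : Matrix ι ι ℂ) * Z * (u : Matrix ι ι ℂ))
    rw [inv_inv, ← h1]
    have : (u : Matrix ι ι ℂ) * (((u⁻¹ : (Matrix ι ι ℂ)ˣ) : Matrix ι ι ℂ) * Z *
        (u : Matrix ι ι ℂ)) * ((u⁻¹ : (Matrix ι ι ℂ)ˣ) : Matrix ι ι ℂ) = Z := by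
      simp [mul_assoc]
    rw [this]

theorem mem_Nrm {CC : Submodule ℂ (Matrix ι ι ℂ)} {u : (Matrix ι ι ℂ)ˣ} :
    u ∈ Nrm CC ↔ ∀ Z : Matrix ι ι ℂ, (u : Matrix ι ι ℂ) * Z * ((u⁻¹ : (Matrix ι ι ℂ)ˣ) :
    Matrix ι ι ℂ) ∈ CC ↔ Z ∈ CC := Iff.rfl

/-- invariance of a subspace under polynomials in an operator -/
theorem aeval_mem {V : Type*} [AddCommGroup V] [Module ℂ V] (T : Module.End ℂ V)
    (W : Submodule ℂ V) (h : ∀ x ∈ W, T x ∈ W) (q : ℂ[X]) : ∀ x ∈ W, aeval T q x ∈ W := by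
  induction q using Polynomial.induction_on' with
  | add p q hp hq =>
    intro x hx
    rw [map_add]
    exact W.add_mem (hp x hx) (hq x hx)
  | monomial n a =>
    intro x hx
    rw [aeval_monomial]
    show algebraMap ℂ (Module.End ℂ V) a ((T ^ n) x) ∈ W
    rw [Module.algebraMap_end_apply]
    refine W.smul_mem _ ?_
    induction n with
    | zero => simpa using hx
    | succ n ih =>
      rw [pow_succ']
      exact h _ ih

theorem aeval_lin {V : Type*} [AddCommGroup V] [Module ℂ V] (T : Module.End ℂ V)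
    (φ : V →ₗ[ℂ] ℂ) (c : ℂ) (h : ∀ x, φ (T x) = c * φ x) (q : ℂ[X]) :
    ∀ x, φ (aeval T q x) = q.eval c * φ x := by
  induction q using Polynomial.induction_on' with
  | add p q hp hq =>
    intro x
    rw [map_add, LinearMap.add_apply, map_add, hp, hq, eval_add, add_mul]
  | monomial n a =>
    intro x
    rw [aeval_monomial]
    show φ (algebraMap ℂ (Module.End ℂ V) a ((T ^ n) x)) = _
    rw [Module.algebraMap_end_apply, map_smul, eval_monomial, smul_eq_mul, mul_assoc]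
    congr 1
    induction n with
    | zero => simp
    | succ n ih =>
      rw [pow_succ']
      show φ (T ((T ^ n) x)) = _
      rw [h, ih, pow_succ]
      ring

/-- The square root of a positive definite element normalizing `CC` normalizes `CC`. -/
theorem sqrt_step (CC : Submodule ℂ (Matrix ι ι ℂ)) (V : Matrix ι ι ℂ) (hV : Vᴴ * V = 1)
    (l : ι → ℝ) (hl : ∀ a, 0 < l a)
    (hA : ∀ Z ∈ CC, (V * diagonal (fun a => ((l a)⁻¹ : ℂ)) * Vᴴ) * Z *
      (V * diagonal (fun a => (l a : ℂ)) * Vᴴ) ∈ CC) :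
    ∀ Z ∈ CC, (V * diagonal (fun a => (((√(l a))⁻¹ : ℝ) : ℂ)) * Vᴴ) * Z *
      (V * diagonal (fun a => ((√(l a) : ℝ) : ℂ)) * Vᴴ) ∈ CC := by
  have hV' : V * Vᴴ = 1 := mul_eq_one_comm.mp hV
  set T : Module.End ℂ (Matrix ι ι ℂ) :=
    (LinearMap.mulLeft ℂ (V * diagonal (fun a => ((l a)⁻¹ : ℂ)) * Vᴴ)).comp
      (LinearMap.mulRight ℂ (V * diagonal (fun a => (l a : ℂ)) * Vᴴ)) with hT
  have hTa : ∀ Z, T Z = (V * diagonal (fun a => ((l a)⁻¹ : ℂ)) * Vᴴ) * Z *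
      (V * diagonal (fun a => (l a : ℂ)) * Vᴴ) := by
    intro Z; simp [hT, mul_assoc]
  -- the coordinate functionals
  let φ : ι → ι → Matrix ι ι ℂ →ₗ[ℂ] ℂ := fun a b =>
    { toFun := fun Z => (Vᴴ * Z * V) a b
      map_add' := by intro x y; simp [mul_add, add_mul]
      map_smul' := by intro c x; simp }
  have hφ : ∀ a b (d e : ι → ℂ) Z, φ a b ((V * diagonal d * Vᴴ) * Z * (V * diagonal e * Vᴴ)) =
      d a * φ a b Z * e b := by
    intro a b d e Z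
    show (Vᴴ * ((V * diagonal d * Vᴴ) * Z * (V * diagonal e * Vᴴ)) * V) a b =
      d a * (Vᴴ * Z * V) a b * e b
    have : Vᴴ * ((V * diagonal d * Vᴴ) * Z * (V * diagonal e * Vᴴ)) * V =
        diagonal d * (Vᴴ * Z * V) * diagonal e := by
      calc _ = (Vᴴ * V) * diagonal d * (Vᴴ * Z * V) * diagonal e * (Vᴴ * V) := by
            simp only [mul_assoc]
        _ = _ := by rw [hV]; simp
    rw [this, mul_diagonal, diagonal_mul]
  have hsep : ∀ Y Z, (∀ a b, φ a b Y = φ a b Z) → Y = Z := by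
    intro Y Z h
    have h1 : Vᴴ * Y * V = Vᴴ * Z * V := by ext a b; exact h a b
    calc Y = (V * Vᴴ) * Y * (V * Vᴴ) := by rw [hV']; simp
      _ = V * (Vᴴ * Y * V) * Vᴴ := by simp only [mul_assoc]
      _ = V * (Vᴴ * Z * V) * Vᴴ := by rw [h1]
      _ = (V * Vᴴ) * Z * (V * Vᴴ) := by simp only [mul_assoc]
      _ = Z := by rw [hV']; simp
  -- Lagrange interpolation
  set F : Finset ℝ := Finset.univ.image (fun p : ι × ι => (l p.1)⁻¹ * l p.2) with hF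
  set q : ℂ[X] := Lagrange.interpolate F (fun r : ℝ => (r : ℂ)) (fun r : ℝ => ((√r : ℝ) : ℂ))
    with hq
  have hqe : ∀ a b, q.eval (((l a)⁻¹ * l b : ℝ) : ℂ) = ((√((l a)⁻¹ * l b) : ℝ) : ℂ) := by
    intro a b
    have hinj : Set.InjOn (fun r : ℝ => (r : ℂ)) (F : Set ℝ) :=
      Complex.ofReal_injective.injOn
    have hm : (l a)⁻¹ * l b ∈ F := by
      rw [hF, Finset.mem_image]
      exact ⟨(a, b), Finset.mem_univ _, rfl⟩
    exact Lagrange.eval_interpolate_at_node (fun r : ℝ => ((√r : ℝ) : ℂ)) hinj hm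
  intro Z hZ
  have key : (V * diagonal (fun a => (((√(l a))⁻¹ : ℝ) : ℂ)) * Vᴴ) * Z *
      (V * diagonal (fun a => ((√(l a) : ℝ) : ℂ)) * Vᴴ) = aeval T q Z := by
    apply hsep
    intro a b
    rw [hφ, aeval_lin T (φ a b) (((l a)⁻¹ * l b : ℝ) : ℂ), hqe]
    · rw [Real.sqrt_mul (inv_nonneg.mpr (hl a).le), Real.sqrt_inv]
      push_cast
      ring
    · intro x
      rw [hTa, hφ]
      push_cast
      ring
  rw [key]
  exact aeval_mem T CC (fun x hx => by rw [hTa]; exact hA x hx) q Z hZ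

/-- polar decomposition inside the normalizer -/
theorem polar (CC : Submodule ℂ (Matrix ι ι ℂ)) (hdag : ∀ Z ∈ CC, Zᴴ ∈ CC)
    (u : (Matrix ι ι ℂ)ˣ) (hu : u ∈ Nrm CC) :
    ∃ K S : Matrix ι ι ℂ, Kᴴ * K = 1 ∧ Sᴴ = S ∧ S * S = (u : Matrix ι ι ℂ)ᴴ * u ∧
      (u : Matrix ι ι ℂ) = K * S ∧ ∀ Z ∈ CC, K * Z * Kᴴ ∈ CC := by
  have hAh : ((u : Matrix ι ι ℂ)ᴴ * u).IsHermitian := isHermitian_conjTranspose_mul_self _
  have hAp : ((u : Matrix ι ι ℂ)ᴴ * u).PosDef := by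
    apply PosDef.conjTranspose_mul_self
    exact mulVec_injective_of_isUnit u.isUnit
  have hlp : ∀ a, 0 < hAh.eigenvalues a := fun a => hAp.eigenvalues_pos a
  set V : Matrix ι ι ℂ := (hAh.eigenvectorUnitary : Matrix ι ι ℂ) with hVdef
  have hV : Vᴴ * V = 1 := by
    have := Unitary.coe_star_mul_self hAh.eigenvectorUnitary
    simpa [star_eq_conjTranspose] using this
  have hV' : V * Vᴴ = 1 := mul_eq_one_comm.mp hV
  set l := hAh.eigenvalues with hldef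
  have hA : (u : Matrix ι ι ℂ)ᴴ * u = V * diagonal (fun a => (l a : ℂ)) * Vᴴ := by
    have := hAh.spectral_theorem
    rw [Unitary.conjStarAlgAut_apply] at this
    exact this
  have hprod : ∀ d e : ι → ℂ, (V * diagonal d * Vᴴ) * (V * diagonal e * Vᴴ) =
      V * diagonal (fun a => d a * e a) * Vᴴ := by
    intro d e
    calc _ = V * (diagonal d * (Vᴴ * V) * diagonal e) * Vᴴ := by simp only [mul_assoc]
      _ = _ := by rw [hV, mul_one, diagonal_mul_diagonal]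
  have hone : V * diagonal (fun _ => (1 : ℂ)) * Vᴴ = 1 := by
    rw [diagonal_one, mul_one, hV']
  have hdg : ∀ r : ι → ℝ, (V * diagonal (fun a => (r a : ℂ)) * Vᴴ)ᴴ =
      V * diagonal (fun a => (r a : ℂ)) * Vᴴ := by
    intro r
    rw [conjTranspose_mul, conjTranspose_mul, conjTranspose_conjTranspose,
      diagonal_conjTranspose, mul_assoc]
    congr 3
    ext a
    simp
  -- the inverse of `A`
  have hAinv : V * diagonal (fun a => ((l a)⁻¹ : ℂ)) * Vᴴ =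
      ((u⁻¹ : (Matrix ι ι ℂ)ˣ) : Matrix ι ι ℂ) * ((u⁻¹ : (Matrix ι ι ℂ)ˣ) : Matrix ι ι ℂ)ᴴ := by
    have h1 : (V * diagonal (fun a => ((l a)⁻¹ : ℂ)) * Vᴴ) * ((u : Matrix ι ι ℂ)ᴴ * u) = 1 := by
      rw [hA, hprod]
      rw [← hone]
      congr 3
      ext a
      exact inv_mul_cancel₀ (by exact_mod_cast (hlp a).ne')
    have h2 : ((u : Matrix ι ι ℂ)ᴴ * u) * (((u⁻¹ : (Matrix ι ι ℂ)ˣ) : Matrix ι ι ℂ) *
        ((u⁻¹ : (Matrix ι ι ℂ)ˣ) : Matrix ι ι ℂ)ᴴ) = 1 := by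
      calc _ = (u : Matrix ι ι ℂ)ᴴ * ((u : Matrix ι ι ℂ) * ((u⁻¹ : (Matrix ι ι ℂ)ˣ) :
            Matrix ι ι ℂ)) * ((u⁻¹ : (Matrix ι ι ℂ)ˣ) : Matrix ι ι ℂ)ᴴ := by
            simp only [mul_assoc]
        _ = (((u⁻¹ : (Matrix ι ι ℂ)ˣ) : Matrix ι ι ℂ) * (u : Matrix ι ι ℂ))ᴴ := by
            rw [Units.mul_inv, mul_one, conjTranspose_mul]
        _ = 1 := by rw [Units.inv_mul, conjTranspose_one]
    exact left_inv_eq_right_inv h1 h2
  have hstep : ∀ Z ∈ CC, (V * diagonal (fun a => ((l a)⁻¹ : ℂ)) * Vᴴ) * Z *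
      (V * diagonal (fun a => (l a : ℂ)) * Vᴴ) ∈ CC := by
    intro Z hZ
    rw [hAinv, ← hA]
    -- `u⁻¹ (u⁻¹)ᴴ Z uᴴ u`
    have h1 : (((u : Matrix ι ι ℂ)) * Zᴴ * ((u⁻¹ : (Matrix ι ι ℂ)ˣ) : Matrix ι ι ℂ)) ∈ CC :=
      (mem_Nrm.mp hu Zᴴ).mpr (hdag Z hZ)
    have h2 := hdag _ h1
    have h3 := (mem_Nrm.mp ((Nrm CC).inv_mem hu) _).mpr h2
    rw [inv_inv] at h3
    convert h3 using 1
    simp only [conjTranspose_mul, conjTranspose_conjTranspose, mul_assoc]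
  have hsq := sqrt_step CC V hV l hlp hstep
  set S : Matrix ι ι ℂ := V * diagonal (fun a => ((√(l a) : ℝ) : ℂ)) * Vᴴ with hS
  set R : Matrix ι ι ℂ := V * diagonal (fun a => (((√(l a))⁻¹ : ℝ) : ℂ)) * Vᴴ with hR
  have hSR : R * S = 1 := by
    rw [hS, hR, hprod, ← hone]
    congr 3
    ext a
    have : (√(l a)) ≠ 0 := (Real.sqrt_pos.mpr (hlp a)).ne'
    rw [← Complex.ofReal_mul, inv_mul_cancel₀ this, Complex.ofReal_one]
  have hRS : S * R = 1 := mul_eq_one_comm.mp hSR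
  have hSS : S * S = (u : Matrix ι ι ℂ)ᴴ * u := by
    rw [hA, hS, hprod]
    congr 3
    ext a
    rw [← Complex.ofReal_mul, Real.mul_self_sqrt (hlp a).le]
  have hSd : Sᴴ = S := hdg _
  have hRd : Rᴴ = R := hdg _
  have hKK : ((u : Matrix ι ι ℂ) * R)ᴴ * ((u : Matrix ι ι ℂ) * R) = 1 := by
    calc _ = R * ((u : Matrix ι ι ℂ)ᴴ * (u : Matrix ι ι ℂ)) * R := by
          rw [conjTranspose_mul, hRd]; simp only [mul_assoc]
      _ = (R * S) * (S * R) := by rw [← hSS]; simp only [mul_assoc]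
      _ = 1 := by rw [hSR, hRS, mul_one]
  refine ⟨(u : Matrix ι ι ℂ) * R, S, hKK, hSd, hSS, ?_, ?_⟩
  · rw [mul_assoc, hSR, mul_one]
  · intro Z hZ
    have h1 := hsq Z hZ
    have h2 := (mem_Nrm.mp hu _).mpr h1
    convert h2 using 1
    have h3 : ((u : Matrix ι ι ℂ) * R)ᴴ = S * ((u⁻¹ : (Matrix ι ι ℂ)ˣ) : Matrix ι ι ℂ) := by
      apply left_inv_eq_right_inv hKK
      calc _ = (u : Matrix ι ι ℂ) * (R * S) * ((u⁻¹ : (Matrix ι ι ℂ)ˣ) : Matrix ι ι ℂ) := by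
            simp only [mul_assoc]
        _ = 1 := by rw [hSR, mul_one, Units.mul_inv]
    rw [h3]
    simp only [mul_assoc]

end R496.GP
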