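import Mathlib
import Pool.Agent.R496.GP.Polar

namespace R496.GP

open Matrix Polynomial Filter Topology
open scoped ComplexOrder

variable {ι : Type*} [Fintype ι] [DecidableEq ι]

theorem exp_mem_Nrm (CC : Submodule ℂ (Matrix ι ι ℂ))
    (hcomm : ∀ X ∈ CC, ∀ Y ∈ CC, X * Y - Y * X ∈ CC) {Z : Matrix ι ι ℂ} (hZ : Z ∈ CC)
    (u : (Matrix ι ι ℂ)ˣ) (hu : (u : Matrix ι ι ℂ) = NormedSpace.exp Z) : u ∈ Nrm CC := by
  have hinv : ((u⁻¹ : (Matrix ι ι ℂ)ˣ) : Matrix ι ι ℂ) = NormedSpace.exp (-Z) := by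
    rw [Matrix.exp_neg, ← hu, Matrix.coe_units_inv]
  intro W
  constructor
  · intro h
    have := conj_exp_mem CC hcomm (CC.neg_mem hZ) h
    rw [neg_neg, ← hinv, ← hu] at this
    simpa [mul_assoc] using this
  · intro h
    rw [hinv, hu]
    exact conj_exp_mem CC hcomm hZ h

/-- `exp (U D Uᴴ)` -/
theorem exp_conj_diag (U : Matrix ι ι ℂ) (hU : Uᴴ * U = 1) (y : ι → ℝ) :
    NormedSpace.exp (U * diagonal (fun a => (y a : ℂ)) * Uᴴ) =
      U * diagonal (fun a => ((Real.exp (y a) : ℝ) : ℂ)) * Uᴴ := by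
  have hUi : U⁻¹ = Uᴴ := Matrix.inv_eq_left_inv hU
  have hunit : IsUnit U := by
    rw [Matrix.isUnit_iff_isUnit_det]
    exact Matrix.isUnit_det_of_left_inverse hU
  have := Matrix.exp_conj U (diagonal (fun a => (y a : ℂ))) hunit
  rw [hUi] at this
  rw [this, Matrix.exp_diagonal]
  congr 3
  ext a
  rw [Pi.coe_exp, ← Complex.exp_eq_exp_ℂ, Complex.ofReal_exp]

theorem entry_le (H : Matrix ι ι ℂ) (hH : Hᴴ = H) (a b : ι) :
    ‖H a b‖ ^ 2 ≤ ((H * H) a a).re := by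
  have h1 : ((H * H) a a).re = ∑ c, ‖H a c‖ ^ 2 := by
    rw [mul_apply, Complex.re_sum]
    refine Finset.sum_congr rfl fun c _ => ?_
    have : H c a = (starRingEnd ℂ) (H a c) := by
      conv_lhs => rw [← hH]
      rfl
    rw [this, Complex.mul_conj, Complex.ofReal_re, Complex.normSq_eq_norm_sq]
  rw [h1]
  exact Finset.single_le_sum (f := fun c => ‖H a c‖ ^ 2) (fun c _ => by positivity)
    (Finset.mem_univ b)

theorem key_seq (CC : Submodule ℂ (Matrix ι ι ℂ))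
    (hcomm : ∀ X ∈ CC, ∀ Y ∈ CC, X * Y - Y * X ∈ CC) (hdag : ∀ Z ∈ CC, Zᴴ ∈ CC)
    (M : (Matrix ι ι ℂ)ˣ) (hM : M ∈ Nrm CC) (U : Matrix ι ι ℂ) (hU : Uᴴ * U = 1)
    (x : ι → ℝ) (hX : U * diagonal (fun a => (x a : ℂ)) * Uᴴ ∈ CC) (n : ℕ) :
    ∃ K : Matrix ι ι ℂ, Kᴴ * K = 1 ∧ (∀ Z ∈ CC, K * Z * Kᴴ ∈ CC) ∧
      ∀ a b, ‖(Uᴴ * Kᴴ * (M : Matrix ι ι ℂ) * U) a b‖ ^ 2 ≤
        ((Uᴴ * (M : Matrix ι ι ℂ)ᴴ * (M : Matrix ι ι ℂ) * U) a a).re *
          Real.exp (-(2 * (x b - x a))) ^ n := by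
  have hU' : U * Uᴴ = 1 := mul_eq_one_comm.mp hU
  set E : ℝ → Matrix ι ι ℂ := fun t =>
    U * diagonal (fun a => ((Real.exp (t * x a) : ℝ) : ℂ)) * Uᴴ with hE
  have hprod : ∀ d e : ι → ℂ, (U * diagonal d * Uᴴ) * (U * diagonal e * Uᴴ) =
      U * diagonal (fun a => d a * e a) * Uᴴ := by
    intro d e
    calc _ = U * (diagonal d * (Uᴴ * U) * diagonal e) * Uᴴ := by simp only [mul_assoc]
      _ = _ := by rw [hU, mul_one, diagonal_mul_diagonal]
  have hEE : ∀ t, E t * E (-t) = 1 := by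
    intro t
    simp only [hE]
    rw [hprod]
    have : (fun a => ((Real.exp (t * x a) : ℝ) : ℂ) * ((Real.exp (-t * x a) : ℝ) : ℂ)) =
        fun _ => (1 : ℂ) := by
      ext a
      rw [← Complex.ofReal_mul, ← Real.exp_add]
      simp
    rw [this, diagonal_one, mul_one, hU']
  have hEd : ∀ t, (E t)ᴴ = E t := by
    intro t
    simp only [hE]
    rw [conjTranspose_mul, conjTranspose_mul, conjTranspose_conjTranspose,
      diagonal_conjTranspose, mul_assoc]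
    congr 3
    ext a
    exact Complex.conj_ofReal _
  let eu : (Matrix ι ι ℂ)ˣ := ⟨E n, E (-n), hEE n, by simpa using hEE (-n)⟩
  have heu : eu ∈ Nrm CC := by
    apply exp_mem_Nrm CC hcomm (CC.smul_mem (n : ℂ) hX)
    show E n = _
    have h1 : (n : ℂ) • (U * diagonal (fun a => (x a : ℂ)) * Uᴴ) =
        U * diagonal (fun a => (((n : ℝ) * x a : ℝ) : ℂ)) * Uᴴ := by
      rw [← smul_mul_assoc, ← mul_smul_comm, ← diagonal_smul]
      congr 3
      ext a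
      simp
    rw [h1, exp_conj_diag U hU]
  obtain ⟨K, S, hK, hSd, hSS, hB, hKC⟩ := polar CC hdag (M * eu) ((Nrm CC).mul_mem hM heu)
  refine ⟨K, hK, hKC, fun a b => ?_⟩
  have hBv : ((M * eu : (Matrix ι ι ℂ)ˣ) : Matrix ι ι ℂ) = (M : Matrix ι ι ℂ) * E n := rfl
  rw [hBv] at hSS hB
  have hKM : Kᴴ * (M : Matrix ι ι ℂ) = S * E (-n) := by
    calc Kᴴ * (M : Matrix ι ι ℂ) = Kᴴ * ((M : Matrix ι ι ℂ) * (E n * E (-n))) := by
          rw [hEE, mul_one]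
      _ = Kᴴ * ((M : Matrix ι ι ℂ) * E n) * E (-n) := by simp only [mul_assoc]
      _ = (Kᴴ * K) * S * E (-n) := by rw [hB]; simp only [mul_assoc]
      _ = _ := by rw [hK, one_mul]
  have hP : Uᴴ * Kᴴ * (M : Matrix ι ι ℂ) * U =
      (Uᴴ * S * U) * diagonal (fun a => ((Real.exp (-n * x a) : ℝ) : ℂ)) := by
    calc _ = Uᴴ * (Kᴴ * (M : Matrix ι ι ℂ)) * U := by simp only [mul_assoc]
      _ = Uᴴ * S * U * diagonal (fun a => ((Real.exp (-n * x a) : ℝ) : ℂ)) * (Uᴴ * U) := by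
          rw [hKM]; simp only [hE, mul_assoc]
      _ = _ := by rw [hU, mul_one]
  have hH : (Uᴴ * S * U)ᴴ = Uᴴ * S * U := by
    simp only [conjTranspose_mul, conjTranspose_conjTranspose, hSd, mul_assoc]
  have hHH : (Uᴴ * S * U) * (Uᴴ * S * U) =
      diagonal (fun a => ((Real.exp (n * x a) : ℝ) : ℂ)) *
      (Uᴴ * (M : Matrix ι ι ℂ)ᴴ * (M : Matrix ι ι ℂ) * U) *
      diagonal (fun a => ((Real.exp (n * x a) : ℝ) : ℂ)) := by
    calc _ = Uᴴ * S * (U * Uᴴ) * S * U := by simp only [mul_assoc]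
      _ = Uᴴ * (S * S) * U := by rw [hU', mul_one]; simp only [mul_assoc]
      _ = Uᴴ * (E n * (M : Matrix ι ι ℂ)ᴴ * ((M : Matrix ι ι ℂ) * E n)) * U := by
          rw [hSS, conjTranspose_mul, hEd]
      _ = (Uᴴ * U) * diagonal (fun a => ((Real.exp (n * x a) : ℝ) : ℂ)) *
          (Uᴴ * (M : Matrix ι ι ℂ)ᴴ * (M : Matrix ι ι ℂ) * U) *
          diagonal (fun a => ((Real.exp (n * x a) : ℝ) : ℂ)) * (Uᴴ * U) := by
          simp only [hE, mul_assoc]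
      _ = _ := by rw [hU, one_mul, mul_one]
  have h1 := entry_le _ hH a b
  rw [hHH, mul_diagonal, diagonal_mul] at h1
  rw [hP, mul_diagonal, norm_mul, mul_pow, Complex.norm_real, Real.norm_eq_abs,
    abs_of_pos (Real.exp_pos _)]
  have h2 : ((((Real.exp (n * x a) : ℝ) : ℂ) * (Uᴴ * (M : Matrix ι ι ℂ)ᴴ *
      (M : Matrix ι ι ℂ) * U) a a * ((Real.exp (n * x a) : ℝ) : ℂ))).re =
      Real.exp (n * x a) * ((Uᴴ * (M : Matrix ι ι ℂ)ᴴ * (M : Matrix ι ι ℂ) * U) a a).re *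
        Real.exp (n * x a) := by
    rw [Complex.re_mul_ofReal, Complex.re_ofReal_mul]
  rw [h2] at h1
  calc _ ≤ (Real.exp (n * x a) * ((Uᴴ * (M : Matrix ι ι ℂ)ᴴ * (M : Matrix ι ι ℂ) * U) a a).re *
        Real.exp (n * x a)) * Real.exp (-n * x b) ^ 2 := by
        apply mul_le_mul_of_nonneg_right h1 (by positivity)
    _ = ((Uᴴ * (M : Matrix ι ι ℂ)ᴴ * (M : Matrix ι ι ℂ) * U) a a).re *
        (Real.exp (n * x a) * Real.exp (n * x a) * Real.exp (-n * x b) ^ 2) := by ring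
    _ = _ := by
        congr 1
        rw [← Real.exp_nat_mul, ← Real.exp_nat_mul, ← Real.exp_add, ← Real.exp_add]
        congr 1
        push_cast
        ring

theorem isCompact_unit (CC : Submodule ℂ (Matrix ι ι ℂ)) :
    IsCompact {K : Matrix ι ι ℂ | Kᴴ * K = 1 ∧ ∀ Z ∈ CC, K * Z * Kᴴ ∈ CC} := by
  have h1 : IsCompact {K : Matrix ι ι ℂ | ∀ i, K i ∈ {v : ι → ℂ | ∀ j, v j ∈
      Metric.closedBall (0 : ℂ) 1}} := by
    apply isCompact_pi_infinite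
    intro i
    apply isCompact_pi_infinite
    intro j
    exact isCompact_closedBall _ _
  refine h1.of_isClosed_subset ?_ ?_
  · have hcl : IsClosed (CC : Set (Matrix ι ι ℂ)) := Submodule.closed_of_finiteDimensional CC
    have : {K : Matrix ι ι ℂ | Kᴴ * K = 1 ∧ ∀ Z ∈ CC, K * Z * Kᴴ ∈ CC} =
        {K : Matrix ι ι ℂ | Kᴴ * K = 1} ∩
          ⋂ Z ∈ CC, (fun K : Matrix ι ι ℂ => K * Z * Kᴴ) ⁻¹' (CC : Set (Matrix ι ι ℂ)) := by
      ext K
      simp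
    rw [this]
    refine IsClosed.inter (isClosed_eq ?_ continuous_const) ?_
    · exact (Continuous.matrix_conjTranspose continuous_id).matrix_mul continuous_id
    · refine isClosed_biInter fun Z _ => hcl.preimage ?_
      exact ((continuous_id.matrix_mul continuous_const).matrix_mul
        (Continuous.matrix_conjTranspose continuous_id))
  · rintro K ⟨hK, -⟩ i j
    rw [mem_closedBall_zero_iff]
    apply entry_norm_bound_of_unitary
    rw [Matrix.mem_unitaryGroup_iff']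
    exact hK

theorem key_lemma (CC : Submodule ℂ (Matrix ι ι ℂ))
    (hcomm : ∀ X ∈ CC, ∀ Y ∈ CC, X * Y - Y * X ∈ CC) (hdag : ∀ Z ∈ CC, Zᴴ ∈ CC)
    (M : (Matrix ι ι ℂ)ˣ) (hM : M ∈ Nrm CC) (U : Matrix ι ι ℂ) (hU : Uᴴ * U = 1)
    (x : ι → ℝ) (hX : U * diagonal (fun a => (x a : ℂ)) * Uᴴ ∈ CC) :
    ∃ K : Matrix ι ι ℂ, Kᴴ * K = 1 ∧ (∀ Z ∈ CC, K * Z * Kᴴ ∈ CC) ∧
      ∀ a b, x a < x b → (Uᴴ * Kᴴ * (M : Matrix ι ι ℂ) * U) a b = 0 := by
  choose K hK hKC hKb using key_seq CC hcomm hdag M hM U hU x hX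
  haveI : FirstCountableTopology (Matrix ι ι ℂ) :=
    inferInstanceAs (FirstCountableTopology (ι → ι → ℂ))
  obtain ⟨L, ⟨hL, hLC⟩, φ, hφ, hlim⟩ := (isCompact_unit CC).tendsto_subseq
    (x := K) (fun n => ⟨hK n, hKC n⟩)
  refine ⟨L, hL, hLC, fun a b hab => ?_⟩
  have hcont : Continuous fun K : Matrix ι ι ℂ =>
      ‖(Uᴴ * Kᴴ * (M : Matrix ι ι ℂ) * U) a b‖ ^ 2 := by
    have h1 : Continuous fun K : Matrix ι ι ℂ => Uᴴ * Kᴴ * (M : Matrix ι ι ℂ) * U :=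
      ((continuous_const.matrix_mul (Continuous.matrix_conjTranspose continuous_id)).matrix_mul
        continuous_const).matrix_mul continuous_const
    exact ((h1.matrix_elem a b).norm).pow 2
  have h2 := (hcont.tendsto L).comp hlim
  have h3 : Tendsto (fun n => ((Uᴴ * (M : Matrix ι ι ℂ)ᴴ * (M : Matrix ι ι ℂ) * U) a a).re *
      Real.exp (-(2 * (x b - x a))) ^ φ n) atTop (𝓝 0) := by
    have h4 : Tendsto (fun n : ℕ => Real.exp (-(2 * (x b - x a))) ^ n) atTop (𝓝 0) := by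
      apply tendsto_pow_atTop_nhds_zero_of_lt_one (Real.exp_pos _).le
      rw [Real.exp_lt_one_iff]
      linarith
    have := (h4.comp hφ.tendsto_atTop).const_mul
      (((Uᴴ * (M : Matrix ι ι ℂ)ᴴ * (M : Matrix ι ι ℂ) * U) a a).re)
    simpa using this
  have h5 := le_of_tendsto_of_tendsto' h2 h3 (fun n => hKb (φ n) a b)
  have h6 : ‖(Uᴴ * Lᴴ * (M : Matrix ι ι ℂ) * U) a b‖ ^ 2 = 0 := le_antisymm h5 (by positivity)
  exact norm_eq_zero.mp (pow_eq_zero_iff (two_ne_zero) |>.mp h6)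

end R496.GP
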