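import Mathlib
import Pool.Agent.R496.GP.Key

namespace R496.GP

open Matrix Polynomial Filter Topology MeasureTheory

section abel

variable {ι : Type*} [Fintype ι]

theorem integral_step (B x d : ℝ) (hx1 : -B ≤ x) (hx2 : x ≤ B) :
    ∫ s in (-B)..B, (if x < s then d else 0) = (B - x) * d := by
  have hB : -B ≤ B := hx1.trans hx2
  rw [intervalIntegral.integral_of_le hB]
  have h1 : (fun s : ℝ => if x < s then d else 0) = (Set.Ioi x).indicator (fun _ => d) := by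
    ext s
    simp [Set.indicator_apply]
  rw [h1, setIntegral_indicator measurableSet_Ioi]
  have h2 : Set.Ioc (-B) B ∩ Set.Ioi x = Set.Ioc x B := by
    ext s
    simp only [Set.mem_inter_iff, Set.mem_Ioc, Set.mem_Ioi]
    constructor
    · rintro ⟨⟨_, h⟩, h'⟩; exact ⟨h', h⟩
    · rintro ⟨h, h'⟩; exact ⟨⟨lt_of_le_of_lt hx1 h, h'⟩, h⟩
  rw [h2, setIntegral_const, Real.volume_real_Ioc_of_le hx2, smul_eq_mul]

theorem abel (x δ : ι → ℝ) (h0 : ∑ a, δ a = 0)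
    (h : ∀ s : ℝ, ∑ a, (if x a < s then δ a else 0) ≤ 0) : 0 ≤ ∑ a, x a * δ a := by
  set B := ∑ a, |x a| with hB
  have hxB : ∀ a, |x a| ≤ B := fun a =>
    Finset.single_le_sum (f := fun a => |x a|) (fun a _ => abs_nonneg _) (Finset.mem_univ a)
  have hB0 : 0 ≤ B := Finset.sum_nonneg fun a _ => abs_nonneg _
  have hint : ∀ a, ∫ s in (-B)..B, (if x a < s then δ a else 0) = (B - x a) * δ a := fun a =>
    integral_step B (x a) (δ a) (abs_le.mp (hxB a)).1 (abs_le.mp (hxB a)).2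
  have hii : ∀ a ∈ Finset.univ, IntervalIntegrable (fun s => if x a < s then δ a else 0) volume
      (-B) B := by
    intro a _
    have h1 : (fun s : ℝ => if x a < s then δ a else 0) =
        (Set.Ioi (x a)).indicator (fun _ => δ a) := by
      ext s
      simp [Set.indicator_apply]
    rw [h1, intervalIntegrable_iff]
    exact (integrableOn_const (by simp)).indicator measurableSet_Ioi
  have h1 : ∫ s in (-B)..B, ∑ a, (if x a < s then δ a else 0) = ∑ a, (B - x a) * δ a := by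
    rw [intervalIntegral.integral_finset_sum hii]
    exact Finset.sum_congr rfl fun a _ => hint a
  have h2 : ∫ s in (-B)..B, ∑ a, (if x a < s then δ a else 0) ≤ 0 := by
    rw [intervalIntegral.integral_of_le (by linarith)]
    exact integral_nonpos fun s => h s
  rw [h1] at h2
  have h3 : ∑ a, (B - x a) * δ a = B * ∑ a, δ a - ∑ a, x a * δ a := by
    rw [Finset.mul_sum, ← Finset.sum_sub_distrib]
    exact Finset.sum_congr rfl fun a _ => by ring
  rw [h3, h0] at h2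
  linarith

end abel

section vec

variable {ι : Type*} [Fintype ι] [DecidableEq ι] {K : Type*} [Fintype K]

/-- squared norm of a vector -/
noncomputable def nsq (φ : ι → ℂ) : ℝ := ∑ a, ‖φ a‖ ^ 2

omit [DecidableEq ι] in
theorem nsq_eq (φ : ι → ℂ) : star φ ⬝ᵥ φ = (nsq φ : ℂ) := by
  unfold nsq dotProduct
  push_cast
  refine Finset.sum_congr rfl fun a _ => ?_
  rw [Pi.star_apply, Complex.star_def, ← Complex.normSq_eq_conj_mul_self,
    Complex.normSq_eq_norm_sq]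
  push_cast
  rfl

omit [DecidableEq ι] in
theorem nsq_mulVec (P : Matrix ι ι ℂ) (φ : ι → ℂ) :
    (nsq (P *ᵥ φ) : ℂ) = star φ ⬝ᵥ ((Pᴴ * P) *ᵥ φ) := by
  rw [← nsq_eq, star_mulVec, ← mulVec_mulVec, ← dotProduct_mulVec]

theorem sum_nsq (P : K → Matrix ι ι ℂ) (hP : ∑ k, (P k)ᴴ * P k = 1) (φ : ι → ℂ) :
    ∑ k, nsq (P k *ᵥ φ) = nsq φ := by
  have : ((∑ k, nsq (P k *ᵥ φ) : ℝ) : ℂ) = (nsq φ : ℂ) := by
    push_cast
    simp_rw [nsq_mulVec]
    rw [← dotProduct_sum, ← sum_mulVec, hP, one_mulVec, nsq_eq]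
  exact_mod_cast this

theorem trig (P : K → Matrix ι ι ℂ) (hP : ∑ k, (P k)ᴴ * P k = 1) (x : ι → ℝ)
    (hz : ∀ k a b, x a < x b → P k a b = 0) (φ : ι → ℂ) :
    ∑ a, x a * ‖φ a‖ ^ 2 ≤ ∑ k, ∑ a, x a * ‖(P k *ᵥ φ) a‖ ^ 2 := by
  have h := abel x (fun a => ∑ k, ‖(P k *ᵥ φ) a‖ ^ 2 - ‖φ a‖ ^ 2) ?_ ?_
  · have h1 : ∑ a, x a * (∑ k, ‖(P k *ᵥ φ) a‖ ^ 2 - ‖φ a‖ ^ 2) =
        ∑ k, ∑ a, x a * ‖(P k *ᵥ φ) a‖ ^ 2 - ∑ a, x a * ‖φ a‖ ^ 2 := by
      rw [Finset.sum_comm, ← Finset.sum_sub_distrib]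
      refine Finset.sum_congr rfl fun a _ => ?_
      rw [mul_sub, Finset.mul_sum]
    rw [h1] at h
    linarith
  · rw [Finset.sum_sub_distrib, Finset.sum_comm]
    have := sum_nsq P hP φ
    unfold nsq at this
    rw [this, sub_self]
  · intro s
    set χ : ι → ℂ := fun b => if x b < s then φ b else 0 with hχ
    have h1 : ∀ k a, x a < s → (P k *ᵥ φ) a = (P k *ᵥ χ) a := by
      intro k a ha
      simp only [mulVec, dotProduct]
      refine Finset.sum_congr rfl fun b _ => ?_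
      by_cases hb : x b < s
      · simp [hχ, hb]
      · rw [hz k a b (lt_of_lt_of_le ha (not_lt.mp hb))]
        simp
    have h2 : ∑ a, (if x a < s then ∑ k, ‖(P k *ᵥ φ) a‖ ^ 2 - ‖φ a‖ ^ 2 else 0) =
        ∑ k, ∑ a, (if x a < s then ‖(P k *ᵥ χ) a‖ ^ 2 else 0) - nsq χ := by
      unfold nsq
      rw [Finset.sum_comm, ← Finset.sum_sub_distrib]
      refine Finset.sum_congr rfl fun a _ => ?_
      by_cases ha : x a < s
      · simp only [ha, if_true, hχ]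
        congr 1
        refine Finset.sum_congr rfl fun k _ => ?_
        rw [h1 k a ha]
      · simp [ha, hχ]
    rw [h2, ← sum_nsq P hP χ, sub_nonpos]
    refine Finset.sum_le_sum fun k _ => ?_
    unfold nsq
    refine Finset.sum_le_sum fun a _ => ?_
    split_ifs
    · exact le_refl _
    · positivity

/-- expectation of an observable in a vector -/
noncomputable def ex (H : Matrix ι ι ℂ) (φ : ι → ℂ) : ℝ := (star φ ⬝ᵥ (H *ᵥ φ)).re

omit [DecidableEq ι] in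
theorem ex_sum {κ : Type*} [Fintype κ] (g : κ → Matrix ι ι ℂ) (r : κ → ℝ) (φ : ι → ℂ) :
    ex (∑ i, (r i : ℂ) • g i) φ = ∑ i, r i * ex (g i) φ := by
  unfold ex
  rw [sum_mulVec, dotProduct_sum, Complex.re_sum]
  refine Finset.sum_congr rfl fun i _ => ?_
  rw [smul_mulVec, dotProduct_smul, smul_eq_mul, Complex.re_ofReal_mul]

theorem ex_conj_diag (U : Matrix ι ι ℂ) (x : ι → ℝ) (φ : ι → ℂ) :
    ex (U * diagonal (fun a => (x a : ℂ)) * Uᴴ) φ = ∑ a, x a * ‖(Uᴴ *ᵥ φ) a‖ ^ 2 := by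
  unfold ex
  have h1 : (U * diagonal (fun a => (x a : ℂ)) * Uᴴ) *ᵥ φ =
      U *ᵥ (diagonal (fun a => (x a : ℂ)) *ᵥ (Uᴴ *ᵥ φ)) := by
    rw [mulVec_mulVec, mulVec_mulVec]
  have h2 : star φ ⬝ᵥ (U *ᵥ (diagonal (fun a => (x a : ℂ)) *ᵥ (Uᴴ *ᵥ φ))) =
      star (Uᴴ *ᵥ φ) ⬝ᵥ (diagonal (fun a => (x a : ℂ)) *ᵥ (Uᴴ *ᵥ φ)) := by
    rw [star_mulVec, conjTranspose_conjTranspose, ← dotProduct_mulVec]
  rw [h1, h2]
  unfold dotProduct
  rw [Complex.re_sum]
  refine Finset.sum_congr rfl fun a _ => ?_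
  rw [mulVec_diagonal, Pi.star_apply, Complex.star_def]
  have h3 : (starRingEnd ℂ) ((Uᴴ *ᵥ φ) a) * ((x a : ℂ) * (Uᴴ *ᵥ φ) a) =
      ((x a * ‖(Uᴴ *ᵥ φ) a‖ ^ 2 : ℝ) : ℂ) := by
    rw [mul_left_comm, ← Complex.normSq_eq_conj_mul_self, Complex.normSq_eq_norm_sq]
    push_cast
    rfl
  rw [h3, Complex.ofReal_re]

end vec

section main

variable {ι : Type*} [Fintype ι] [DecidableEq ι] {κ : Type*} [Fintype κ] [DecidableEq κ]

/-- the coefficients of a Hermitian element of the span -/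
theorem coeffs (g : κ → Matrix ι ι ℂ) (c : ℝ) (hc : 0 < c) (hg : ∀ i, (g i)ᴴ = g i)
    (ho : ∀ i j, (g i * g j).trace = if i = j then (c : ℂ) else 0) (Y : Matrix ι ι ℂ)
    (hY : Yᴴ = Y) (hm : Y ∈ Submodule.span ℂ (Set.range g)) :
    ∃ r : κ → ℝ, Y = ∑ i, (r i : ℂ) • g i ∧ (Y * Y).trace = ((c * ∑ i, r i ^ 2 : ℝ) : ℂ) := by
  obtain ⟨y, hy⟩ := (Submodule.mem_span_range_iff_exists_fun ℂ).mp hm
  have htr : ∀ j, (g j * Y).trace = c * y j := by
    intro j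
    rw [← hy, Finset.mul_sum, trace_sum]
    simp_rw [mul_smul_comm, trace_smul, ho, smul_eq_mul, mul_ite, mul_zero]
    rw [Finset.sum_ite_eq Finset.univ j]
    simp [mul_comm]
  have hreal : ∀ j, (starRingEnd ℂ) (y j) = y j := by
    intro j
    have h1 : (starRingEnd ℂ) ((g j * Y).trace) = (g j * Y).trace := by
      rw [← Complex.star_def, ← trace_conjTranspose, conjTranspose_mul, hY, hg, trace_mul_comm]
    rw [htr, map_mul, Complex.conj_ofReal] at h1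
    exact mul_left_cancel₀ (by exact_mod_cast hc.ne') h1
  have hyr : ∀ j, ((y j).re : ℂ) = y j := fun j => Complex.conj_eq_iff_re.mp (hreal j)
  refine ⟨fun j => (y j).re, ?_, ?_⟩
  · rw [← hy]
    exact Finset.sum_congr rfl fun j _ => by rw [hyr]
  · conv_lhs => rw [← hy]
    rw [Finset.sum_mul, trace_sum]
    simp_rw [smul_mul_assoc, trace_smul]
    rw [hy]
    simp_rw [htr]
    push_cast
    rw [Finset.mul_sum]
    refine Finset.sum_congr rfl fun j _ => ?_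
    rw [hyr, smul_eq_mul]
    ring

theorem coeffs_trace (g : κ → Matrix ι ι ℂ) (c : ℝ)
    (ho : ∀ i j, (g i * g j).trace = if i = j then (c : ℂ) else 0) (m : κ → ℝ) :
    ((∑ i, (m i : ℂ) • g i) * (∑ i, (m i : ℂ) • g i)).trace = ((c * ∑ i, m i ^ 2 : ℝ) : ℂ) := by
  rw [Finset.sum_mul, trace_sum]
  simp_rw [smul_mul_assoc, trace_smul, Finset.mul_sum, trace_sum, mul_smul_comm, trace_smul, ho,
    smul_eq_mul, mul_ite, mul_zero]
  simp_rw [Finset.sum_ite_eq Finset.univ]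
  simp only [Finset.mem_univ, if_true]
  push_cast
  refine Finset.sum_congr rfl fun j _ => ?_
  ring

theorem ex_le (g : κ → Matrix ι ι ℂ) (r : κ → ℝ) (φ : ι → ℂ) :
    ex (∑ i, (r i : ℂ) • g i) φ ≤ √(∑ i, r i ^ 2) * √(∑ i, ex (g i) φ ^ 2) := by
  rw [ex_sum]
  exact Real.sum_mul_le_sqrt_mul_sqrt _ _ _

/-- first moment inequality -/
theorem first_moment {K : Type*} [Fintype K] (g : κ → Matrix ι ι ℂ) (c : ℝ) (hc : 0 < c)
    (hg : ∀ i, (g i)ᴴ = g i)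
    (ho : ∀ i j, (g i * g j).trace = if i = j then (c : ℂ) else 0)
    (hcomm : ∀ X ∈ Submodule.span ℂ (Set.range g), ∀ Y ∈ Submodule.span ℂ (Set.range g),
      X * Y - Y * X ∈ Submodule.span ℂ (Set.range g))
    (hdag : ∀ Z ∈ Submodule.span ℂ (Set.range g), Zᴴ ∈ Submodule.span ℂ (Set.range g))
    (M : K → (Matrix ι ι ℂ)ˣ) (hM : ∀ k, M k ∈ Nrm (Submodule.span ℂ (Set.range g)))
    (hs : ∑ k, (M k : Matrix ι ι ℂ)ᴴ * (M k : Matrix ι ι ℂ) = 1) (ψ : ι → ℂ) :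
    √(∑ i, ex (g i) ψ ^ 2) ≤ ∑ k, √(∑ i, ex (g i) ((M k : Matrix ι ι ℂ) *ᵥ ψ) ^ 2) := by
  set CC := Submodule.span ℂ (Set.range g) with hCC
  set m : κ → ℝ := fun i => ex (g i) ψ with hm
  set X : Matrix ι ι ℂ := ∑ i, (m i : ℂ) • g i with hX
  have hXC : X ∈ CC := Submodule.sum_mem _ fun i _ =>
    CC.smul_mem _ (Submodule.subset_span ⟨i, rfl⟩)
  have hXd : Xᴴ = X := by
    rw [hX, conjTranspose_sum]
    refine Finset.sum_congr rfl fun i _ => ?_
    rw [conjTranspose_smul, hg, Complex.star_def, Complex.conj_ofReal]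
  have hXh : X.IsHermitian := hXd
  set U : Matrix ι ι ℂ := (hXh.eigenvectorUnitary : Matrix ι ι ℂ) with hUdef
  have hU : Uᴴ * U = 1 := by
    have := Unitary.coe_star_mul_self hXh.eigenvectorUnitary
    simpa [star_eq_conjTranspose] using this
  have hU' : U * Uᴴ = 1 := mul_eq_one_comm.mp hU
  set x := hXh.eigenvalues with hx
  have hXU : X = U * diagonal (fun a => (x a : ℂ)) * Uᴴ := by
    have := hXh.spectral_theorem
    rw [Unitary.conjStarAlgAut_apply] at this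
    exact this
  choose Kk hK hKC hKz using fun k => key_lemma CC hcomm hdag (M k) (hM k) U hU x
    (by rw [← hXU]; exact hXC)
  have hKK' : ∀ k, Kk k * (Kk k)ᴴ = 1 := fun k => mul_eq_one_comm.mp (hK k)
  set P : K → Matrix ι ι ℂ := fun k => Uᴴ * (Kk k)ᴴ * (M k : Matrix ι ι ℂ) * U with hP
  have hPs : ∑ k, (P k)ᴴ * P k = 1 := by
    have h1 : ∀ k, (P k)ᴴ * P k = Uᴴ * ((M k : Matrix ι ι ℂ)ᴴ * (M k : Matrix ι ι ℂ)) * U := by
      intro k
      calc (P k)ᴴ * P k = Uᴴ * (M k : Matrix ι ι ℂ)ᴴ * (Kk k * (U * Uᴴ) * (Kk k)ᴴ) *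
            (M k : Matrix ι ι ℂ) * U := by
            simp only [hP, conjTranspose_mul, conjTranspose_conjTranspose, mul_assoc]
        _ = _ := by rw [hU', mul_one, hKK', mul_one]; simp only [mul_assoc]
    simp_rw [h1]
    rw [← Finset.sum_mul, ← Finset.mul_sum, hs, mul_one, hU]
  have htrig := trig P hPs x hKz (Uᴴ *ᵥ ψ)
  rw [← ex_conj_diag, ← hXU] at htrig
  -- the left side
  have hleft : ex X ψ = ∑ i, m i ^ 2 := by
    rw [hX, ex_sum]
    exact Finset.sum_congr rfl fun i _ => by rw [hm]; ring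
  -- the right side
  have hright : ∀ k, ∑ a, x a * ‖(P k *ᵥ (Uᴴ *ᵥ ψ)) a‖ ^ 2 ≤
      √(∑ i, m i ^ 2) * √(∑ i, ex (g i) ((M k : Matrix ι ι ℂ) *ᵥ ψ) ^ 2) := by
    intro k
    have h1 : P k *ᵥ (Uᴴ *ᵥ ψ) = Uᴴ *ᵥ ((Kk k)ᴴ *ᵥ ((M k : Matrix ι ι ℂ) *ᵥ ψ)) := by
      rw [mulVec_mulVec, mulVec_mulVec, mulVec_mulVec]
      congr 1
      calc P k * Uᴴ = Uᴴ * ((Kk k)ᴴ * (M k : Matrix ι ι ℂ)) * (U * Uᴴ) := by
            simp only [hP, mul_assoc]
        _ = _ := by rw [hU', mul_one]; simp only [mul_assoc]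
    have h2 : ∑ a, x a * ‖(P k *ᵥ (Uᴴ *ᵥ ψ)) a‖ ^ 2 =
        ex (Kk k * X * (Kk k)ᴴ) ((M k : Matrix ι ι ℂ) *ᵥ ψ) := by
      rw [h1, ← ex_conj_diag, ← hXU]
      unfold ex
      congr 1
      rw [star_mulVec (Kk k)ᴴ, conjTranspose_conjTranspose, ← mulVec_mulVec, ← mulVec_mulVec,
        ← dotProduct_mulVec]
    have hYd : (Kk k * X * (Kk k)ᴴ)ᴴ = Kk k * X * (Kk k)ᴴ := by
      simp only [conjTranspose_mul, conjTranspose_conjTranspose, hXd, mul_assoc]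
    obtain ⟨r, hr, hrt⟩ := coeffs g c hc hg ho _ hYd (hKC k X hXC)
    have h3 : ((Kk k * X * (Kk k)ᴴ) * (Kk k * X * (Kk k)ᴴ)).trace = (X * X).trace := by
      calc _ = (Kk k * (X * ((Kk k)ᴴ * Kk k) * X * (Kk k)ᴴ)).trace := by simp only [mul_assoc]
        _ = (X * X * ((Kk k)ᴴ * Kk k)).trace := by
            rw [hK, mul_one, trace_mul_comm]; simp only [mul_assoc]; rw [hK, mul_one]
        _ = _ := by rw [hK, mul_one]
    rw [hrt, hX, coeffs_trace g c ho] at h3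
    have h4 : ∑ i, r i ^ 2 = ∑ i, m i ^ 2 := by
      have : c * ∑ i, r i ^ 2 = c * ∑ i, m i ^ 2 := by exact_mod_cast h3
      exact mul_left_cancel₀ hc.ne' this
    rw [h2, hr, ← h4]
    exact ex_le g r _
  have hmain : ∑ i, m i ^ 2 ≤ √(∑ i, m i ^ 2) *
      ∑ k, √(∑ i, ex (g i) ((M k : Matrix ι ι ℂ) *ᵥ ψ) ^ 2) := by
    rw [← hleft, Finset.mul_sum]
    rw [← hleft] at hright
    exact htrig.trans (Finset.sum_le_sum fun k _ => hright k)
  have hnn : 0 ≤ ∑ i, m i ^ 2 := Finset.sum_nonneg fun i _ => by positivity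
  rcases hnn.eq_or_lt with h0 | h0
  · show √(∑ i, m i ^ 2) ≤ _
    rw [← h0, Real.sqrt_zero]
    exact Finset.sum_nonneg fun k _ => Real.sqrt_nonneg _
  · have hpos : 0 < √(∑ i, m i ^ 2) := Real.sqrt_pos.mpr h0
    have : √(∑ i, m i ^ 2) * √(∑ i, m i ^ 2) ≤ √(∑ i, m i ^ 2) *
        ∑ k, √(∑ i, ex (g i) ((M k : Matrix ι ι ℂ) *ᵥ ψ) ^ 2) := by
      rwa [Real.mul_self_sqrt hnn]
    exact le_of_mul_le_mul_left this hpos

end main

end R496.GP
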